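import Mathlib
import Pool.Agent.W497.Mld.Dvr
import Pool.Agent.H436R3.Fol.Div

/-!
# Hartogs at a point, and finiteness of zeros and poles
-/

set_option autoImplicit false
set_option linter.unusedSectionVars false

namespace Pool.Agent.TH670.C8_HARTP
open Pool.Agent.H436R3.Fol

variable {K : Type} [Field K] [Algebra ℂ K]

/-- The centre of the divisor on `Spec S`. -/
def ctr {S : Subalgebra ℂ K} (w : DVal K) (hw : IsLocalRing' S w) : Ideal S where
  carrier := {s | w.Pos (s : K)}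
  add_mem' := fun {_ _} ha hb => w.pos_add ha hb
  zero_mem' := Or.inl rfl
  smul_mem' := fun c {_} hx => w.pos_mul_left (hw.1 _ c.2) hx

theorem mem_ctr {S : Subalgebra ℂ K} {w : DVal K} (hw : IsLocalRing' S w) (s : S) :
    s ∈ ctr w hw ↔ w.Pos (s : K) := Iff.rfl

theorem ord_of_not_pos {S : Subalgebra ℂ K} {w : DVal K} (hw : IsLocalRing' S w) {s : K}
    (hs : s ∈ S) (h : ¬ w.Pos s) : s ≠ 0 ∧ w.ord s = 0 := by
  have h0 : s ≠ 0 := fun h0 => h (Or.inl h0)
  refine ⟨h0, ?_⟩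
  have h1 := w.ord_nonneg h0 (hw.1 s hs)
  by_contra h2
  exact h (Or.inr (by omega))

theorem ctr_prime {S : Subalgebra ℂ K} {w : DVal K} (hw : IsLocalRing' S w) :
    (ctr w hw).IsPrime := by
  refine ⟨?_, ?_⟩
  · intro h
    have h1 : (1 : S) ∈ ctr w hw := by rw [h]; trivial
    rw [mem_ctr] at h1
    rcases h1 with h1 | h1
    · exact one_ne_zero h1
    · change 0 < w.ord 1 at h1
      rw [w.ord_one] at h1
      omega
  · intro x y hxy
    by_contra hcon
    rw [not_or] at hcon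
    obtain ⟨hx0, hx⟩ := ord_of_not_pos hw x.2 hcon.1
    obtain ⟨hy0, hy⟩ := ord_of_not_pos hw y.2 hcon.2
    rw [mem_ctr] at hxy
    rcases hxy with h | h
    · exact mul_ne_zero hx0 hy0 h
    · change 0 < w.ord ((x : K) * (y : K)) at h
      rw [w.map_mul _ _ hx0 hy0] at h
      omega

/-- The centre has height one. -/
theorem ctr_min {S : Subalgebra ℂ K} {w : DVal K} (hw : IsLocalRing' S w) {f : S}
    (hf0 : f ≠ 0) (hf : f ∈ ctr w hw) {Q : Ideal S} (hQ : Q.IsPrime) (hfQ : f ∈ Q)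
    (hle : Q ≤ ctr w hw) : ctr w hw ≤ Q := by
  intro s hs
  by_cases hs0 : s = 0
  · rw [hs0]; exact Q.zero_mem
  have hsK : (s : K) ≠ 0 := fun h => hs0 (Subtype.ext h)
  have hfK : (f : K) ≠ 0 := fun h => hf0 (Subtype.ext h)
  have h1 : 0 < w.ord (s : K) := ((mem_ctr hw s).1 hs).resolve_left hsK
  have h2 : 0 < w.ord (f : K) := ((mem_ctr hw f).1 hf).resolve_left hfK
  obtain ⟨m, hm⟩ := Int.eq_ofNat_of_zero_le h2.le
  have hreg : w.Reg ((s : K) ^ m / (f : K)) := by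
    right
    rw [w.ord_div (pow_ne_zero _ hsK) hfK, w.ord_pow hsK, hm]
    nlinarith
  obtain ⟨a, b, ha, hb, hb0, hob, hab⟩ := hw.2 _ hreg
  have h3 : (s : K) ^ m * b = a * (f : K) := by
    rw [← hab]
    field_simp
  have h4 : s ^ m * (⟨b, hb⟩ : S) = ⟨a, ha⟩ * f := Subtype.ext h3
  have h5 : s ^ m * (⟨b, hb⟩ : S) ∈ Q := by
    rw [h4]
    exact Q.mul_mem_left _ hfQ
  rcases hQ.mem_or_mem h5 with h6 | h6
  · exact hQ.mem_of_pow_mem _ h6
  · exfalso
    rcases (mem_ctr hw _).1 (hle h6) with h7 | h7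
    · exact hb0 h7
    · change 0 < w.ord b at h7
      omega

theorem ctr_minimalPrimes {S : Subalgebra ℂ K} {w : DVal K} (hw : IsLocalRing' S w) {f : S}
    (hf0 : f ≠ 0) (hf : f ∈ ctr w hw) : ctr w hw ∈ (Ideal.span {f}).minimalPrimes := by
  refine ⟨⟨ctr_prime hw, ?_⟩, ?_⟩
  · rw [Ideal.span_singleton_le_iff_mem]
    exact hf
  · rintro Q ⟨hQ, hfQ⟩ hle
    rw [Ideal.span_singleton_le_iff_mem] at hfQ
    exact ctr_min hw hf0 hf hQ hfQ hle

theorem agree_of_ctr {S : Subalgebra ℂ K} {w z : DVal K} (hw : IsLocalRing' S w)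
    (hz : IsLocalRing' S z) (h : ctr z hz = ctr w hw) {f : K} (hf : f ≠ 0) :
    w.ord f = z.ord f := by
  refine agree_of_key hw hz.1 ?_ hf
  intro s hs hpos
  have h1 : (⟨s, hs⟩ : S) ∈ ctr z hz := hpos
  rw [h] at h1
  exact h1

theorem finite_aux {S : Subalgebra ℂ K} (hfg : S.FG)
    (hfrac : ∀ f : K, ∃ a b : K, a ∈ S ∧ b ∈ S ∧ b ≠ 0 ∧ f * b = a)
    (g : K) (hg : g ≠ 0) :
    ∃ Z : Set (DVal K), Z.Finite ∧ (∀ z ∈ Z, IsLocalRing' S z) ∧
      ∀ w, IsLocalRing' S w → w.ord g ≠ 0 →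
      ∃ z ∈ Z, ∀ f, f ≠ 0 → w.ord f = z.ord f := by
  classical
  have hft : Algebra.FiniteType ℂ S := (Subalgebra.fg_iff_finiteType _).1 hfg
  have hnoe : IsNoetherianRing S := Algebra.FiniteType.isNoetherianRing ℂ S
  obtain ⟨a, b, ha, hb, hb0, hab⟩ := hfrac g
  have ha0 : a ≠ 0 := by rw [← hab]; exact mul_ne_zero hg hb0
  let a' : S := ⟨a, ha⟩
  let b' : S := ⟨b, hb⟩
  have ha'0 : a' ≠ 0 := fun h => ha0 (congrArg Subtype.val h)
  have hb'0 : b' ≠ 0 := fun h => hb0 (congrArg Subtype.val h)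
  let M : Set (Ideal S) := (Ideal.span {a'}).minimalPrimes ∪ (Ideal.span {b'}).minimalPrimes
  have hM : M.Finite :=
    (Ideal.finite_minimalPrimes_of_isNoetherianRing S (Ideal.span {a'})).union
      (Ideal.finite_minimalPrimes_of_isNoetherianRing S (Ideal.span {b'}))
  let M' : Set (Ideal S) := {P ∈ M | ∃ w : DVal K, ∃ hw : IsLocalRing' S w, ctr w hw = P}
  have hM' : M'.Finite := hM.subset fun P hP => hP.1
  let c : M' → DVal K := fun P => Classical.choose P.2.2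
  have hc : ∀ P : M', ∃ hw : IsLocalRing' S (c P), ctr (c P) hw = P.1 := fun P =>
    Classical.choose_spec P.2.2
  have hfin : Finite M' := hM'.to_subtype
  refine ⟨Set.range c, Set.finite_range c, ?_, ?_⟩
  · rintro z ⟨P, rfl⟩
    exact (hc P).1
  · intro w hw hwg
    have h1 : w.ord a = w.ord g + w.ord b := by rw [← hab, w.map_mul _ _ hg hb0]
    have h2 := w.ord_nonneg ha0 (hw.1 a ha)
    have h3 := w.ord_nonneg hb0 (hw.1 b hb)
    have hmem : ctr w hw ∈ M := by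
      by_cases h4 : w.ord a = 0
      · right
        refine ctr_minimalPrimes hw hb'0 ?_
        rw [mem_ctr]
        right
        change 0 < w.ord b
        omega
      · left
        refine ctr_minimalPrimes hw ha'0 ?_
        rw [mem_ctr]
        right
        change 0 < w.ord a
        omega
    let P : M' := ⟨ctr w hw, hmem, w, hw, rfl⟩
    obtain ⟨hz, hzP⟩ := hc P
    exact ⟨c P, ⟨P, rfl⟩, fun f hf => agree_of_ctr hw hz hzP hf⟩

/-- A rational function has zeros and poles along finitely many prime divisors. -/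
theorem finite_ord_ne {S : Subalgebra ℂ K} (hfg : S.FG)
    (hfrac : ∀ f : K, ∃ a b : K, a ∈ S ∧ b ∈ S ∧ b ≠ 0 ∧ f * b = a)
    (hn : ∀ f : K, IsIntegral S f → f ∈ S) (g : K) (hg : g ≠ 0) :
    ∃ Z : Set (DVal K), Z.Finite ∧ ∀ w, IsLocalRing' S w → w.ord g ≠ 0 →
      ∃ z ∈ Z, ∀ f, f ≠ 0 → w.ord f = z.ord f := by
  obtain ⟨Z, hZ, _, h⟩ := finite_aux hfg hfrac g hg
  exact ⟨Z, hZ, h⟩

/-- Rational functions without poles along the prime divisors through a point are regular at the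
point. -/
theorem hartogs_local {S : Subalgebra ℂ K} (hfg : S.FG)
    (hfrac : ∀ f : K, ∃ a b : K, a ∈ S ∧ b ∈ S ∧ b ≠ 0 ∧ f * b = a)
    (hn : ∀ f : K, IsIntegral S f → f ∈ S) (p : Ideal S) (hp : p.IsPrime) {F : K}
    (h : ∀ w : DVal K, IsLocalRing' S w → (∀ s : S, w.Pos (s : K) → s ∈ p) → w.Reg F) :
    ∃ s : S, s ∉ p ∧ (s : K) * F ∈ S := by
  classical
  by_cases hF : F = 0
  · refine ⟨1, fun h1 => hp.ne_top ((Ideal.eq_top_iff_one p).2 h1), ?_⟩
    rw [hF, mul_zero]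
    exact S.zero_mem
  obtain ⟨Z, hZ, hZl, hZa⟩ := finite_aux hfg hfrac F hF
  have hbad : ∀ z : DVal K, z ∈ Z → z.ord F < 0 → ∃ s : S, s ∉ p ∧ z.Pos (s : K) := by
    intro z hz hzF
    by_contra hcon
    push Not at hcon
    have h1 := h z (hZl z hz) (fun s hs => by
      by_contra hsp
      exact hcon s hsp hs)
    rcases h1 with h1 | h1
    · exact hF h1
    · omega
  let t : DVal K → S := fun z =>
    if hz : z ∈ Z ∧ z.ord F < 0 then Classical.choose (hbad z hz.1 hz.2) else 1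
  have ht : ∀ z, (hz : z ∈ Z ∧ z.ord F < 0) → t z ∉ p ∧ z.Pos (t z : K) := by
    intro z hz
    have h1 : t z = Classical.choose (hbad z hz.1 hz.2) := dif_pos hz
    rw [h1]
    exact Classical.choose_spec (hbad z hz.1 hz.2)
  have htp : ∀ z, t z ∉ p := by
    intro z
    by_cases hz : z ∈ Z ∧ z.ord F < 0
    · exact (ht z hz).1
    · have h1 : t z = 1 := dif_neg hz
      rw [h1]
      exact fun h1 => hp.ne_top ((Ideal.eq_top_iff_one p).2 h1)
  have ht0 : ∀ z, (t z : K) ≠ 0 := by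
    intro z h0
    apply htp z
    have : t z = 0 := Subtype.ext h0
    rw [this]
    exact p.zero_mem
  let s : S := ∏ z ∈ hZ.toFinset, t z ^ (-z.ord F).toNat
  have hsK : (s : K) = ∏ z ∈ hZ.toFinset, (t z : K) ^ (-z.ord F).toNat := by
    simp [s]
  refine ⟨s, ?_, ?_⟩
  · intro hs
    obtain ⟨z, _, hz⟩ := (Ideal.IsPrime.prod_mem_iff (hp := hp)).1 hs
    exact htp z (hp.mem_of_pow_mem _ hz)
  · refine Pool.Agent.W497.Mld.hartogs hfg hfrac hn ?_
    intro w hw
    have hs0 : (s : K) ≠ 0 := by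
      rw [hsK, Finset.prod_ne_zero_iff]
      exact fun z _ => pow_ne_zero _ (ht0 z)
    by_cases hwF : 0 ≤ w.ord F
    · exact w.reg_mul (hw.1 _ s.2) (Or.inr hwF)
    · obtain ⟨z, hz, hag⟩ := hZa w hw (by omega)
      right
      rw [w.map_mul _ _ hs0 hF, hsK, w.ord_prod _ _ (fun z _ => pow_ne_zero _ (ht0 z))]
      have h1 : w.ord ((t z : K) ^ (-z.ord F).toNat) ≤
          ∑ i ∈ hZ.toFinset, w.ord ((t i : K) ^ (-i.ord F).toNat) := by
        refine Finset.single_le_sum (f := fun i => w.ord ((t i : K) ^ (-i.ord F).toNat)) ?_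
          (hZ.mem_toFinset.2 hz)
        intro i _
        exact w.ord_nonneg (pow_ne_zero _ (ht0 i)) (hw.1 _ (S.pow_mem (t i).2 _))
      have h2 : w.ord F = z.ord F := hag F hF
      have h3 := (ht z ⟨hz, by omega⟩).2.resolve_left (ht0 z)
      have h4 : w.ord (t z : K) = z.ord (t z : K) := hag _ (ht0 z)
      rw [w.ord_pow (ht0 z)] at h1
      have h5 : (((-z.ord F).toNat : ℕ) : ℤ) = -z.ord F := Int.toNat_of_nonneg (by omega)
      rw [h5] at h1
      have h6 : -z.ord F ≤ -z.ord F * w.ord (t z : K) := by nlinarith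
      linarith

end Pool.Agent.TH670.C8_HARTP
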