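import Pool.Agent.TH670.J370
import Pool.Agent.Helper534.LS.P_par_spec
import Pool.Agent.Helper534.LS.P_sig_sq
import Pool.Agent.Helper534.LS.P_sig_add
import Pool.Agent.Helper534.LS.P_hmap_id
import Pool.Agent.Helper534.LS.P_circ_sub
import Pool.Agent.Helper534.LS.P_circ_cov

/-!
# Homology of a space glued from circle bundles along maps of degrees two and three
-/

set_option autoImplicit false

open Pool.Agent.Helper534.LS
open Pool.Agent.TH179.BE (pw IsHE)

namespace Pool.Agent.TH670.J371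

theorem pw_iota (m : ℕ) (Q : Type) [TopologicalSpace Q] (n : ℕ) (y : HH Q n) :
    hmap (pw m Q) n (hmap (iota Q) n y) = hmap (iota Q) n y := by
  rw [← hmap_comp]
  congr 2
  ext p
  · simp [pw, iota]
  · simp [pw, iota]

theorem pw_two_sig (Q : Type) [TopologicalSpace Q] (n : ℕ) (z : HH Q n) :
    hmap (pw 2 Q) (n + 1) (sig Q n z) = (2 : ℤ) • sig Q n z := by
  have h := sig_sq (ContinuousMap.id (Circle × Q)) (pw 2 Q) (fun p => rfl) n z
  rw [hmap_id] at h
  exact h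

theorem pw_three_sig (Q : Type) [TopologicalSpace Q] (n : ℕ) (z : HH Q n) :
    hmap (pw 3 Q) (n + 1) (sig Q n z) = (3 : ℤ) • sig Q n z := by
  have h := sig_add (⟨fun p => (p.1 * p.2.1 ^ 2, p.2.2), by fun_prop⟩ :
      C(Circle × (Circle × Q), Circle × Q)) (pw 3 Q) (ContinuousMap.id (Circle × Q)) (pw 2 Q)
    (fun p => by
      change (p.1 ^ 3, p.2) = (p.1 * p.1 ^ 2, p.2)
      rw [← pow_succ'])
    (fun p => by
      change p = (p.1 * 1 ^ 2, p.2)
      rw [one_pow, mul_one])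
    (fun p => by
      change (p.1 ^ 2, p.2) = (1 * p.1 ^ 2, p.2)
      rw [one_mul]) n z
  rw [h, hmap_id, pw_two_sig]
  have : (3 : ℤ) = 1 + 2 := by norm_num
  rw [this, add_smul, one_smul]

theorem zero_iota (Q : Type) [TopologicalSpace Q] (x : HH (Circle × Q) 0) :
    ∃ y : HH Q 0, x = hmap (iota Q) 0 y := by
  obtain ⟨_, _, hUV⟩ := circ_cov Q
  obtain ⟨u, v, rfl⟩ := J370.zero_surj (cU Q) (cV Q) hUV x
  obtain ⟨y1, h1⟩ := (circ_sub Q 0).1 u
  obtain ⟨y2, h2⟩ := (circ_sub Q 0).2 v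
  exact ⟨y1 + y2, by rw [map_add, h1, h2]⟩

theorem dec (Q : Type) [TopologicalSpace Q] (n : ℕ) (x : HH (Circle × Q) n) :
    ∃ s t : HH (Circle × Q) n, x = s + t ∧ hmap (pw 2 Q) n s = s ∧ hmap (pw 3 Q) n s = s ∧
      hmap (pw 2 Q) n t = (2 : ℤ) • t ∧ hmap (pw 3 Q) n t = (3 : ℤ) • t := by
  cases n with
  | zero =>
    obtain ⟨y, rfl⟩ := zero_iota Q x
    refine ⟨_, 0, (add_zero _).symm, pw_iota _ _ _ _, pw_iota _ _ _ _, ?_, ?_⟩
    · rw [map_zero, smul_zero]
    · rw [map_zero, smul_zero]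
  | succ n =>
    exact ⟨_, _, par_spec Q n x, pw_iota _ _ _ _, pw_iota _ _ _ _, pw_two_sig _ _ _,
      pw_three_sig _ _ _⟩

theorem rel_a (Q : Type) [TopologicalSpace Q] (n : ℕ) (x : HH (Circle × Q) n) :
    hmap (pw 3 Q) n x = (2 : ℤ) • hmap (pw 2 Q) n x - x := by
  obtain ⟨s, t, rfl, h1, h2, h3, h4⟩ := dec Q n x
  rw [map_add, map_add, h1, h2, h3, h4]
  module

theorem rel_b (Q : Type) [TopologicalSpace Q] (n : ℕ) (x : HH (Circle × Q) n) :
    hmap (pw 2 Q) n (hmap (pw 2 Q) n x) = (3 : ℤ) • hmap (pw 2 Q) n x - (2 : ℤ) • x := by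
  obtain ⟨s, t, rfl, h1, h2, h3, h4⟩ := dec Q n x
  rw [map_add, h1, h3, map_add, h1, map_smul, h3]
  module

theorem common (Q : Type) [TopologicalSpace Q] (n : ℕ) (a b : HH (Circle × Q) n)
    (h : hmap (pw 3 Q) n a = hmap (pw 2 Q) n b) :
    ∃ c, a = hmap (pw 2 Q) n c ∧ b = hmap (pw 3 Q) n c := by
  rw [rel_a] at h
  have h2b : (2 : ℤ) • b = a + hmap (pw 2 Q) n a := by
    have h1 := rel_b Q n b
    rw [← h, map_sub, map_smul, rel_b] at h1
    have h3 : (2 : ℤ) • b = (3 : ℤ) • ((2 : ℤ) • hmap (pw 2 Q) n a - a) -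
        ((2 : ℤ) • ((3 : ℤ) • hmap (pw 2 Q) n a - (2 : ℤ) • a) - hmap (pw 2 Q) n a) := by
      rw [h1]
      module
    rw [h3]
    module
  have hc : hmap (pw 2 Q) n (b + a - hmap (pw 2 Q) n a) = a := by
    rw [map_sub, map_add, rel_b, ← h]
    module
  refine ⟨b + a - hmap (pw 2 Q) n a, hc.symm, ?_⟩
  rw [rel_a, hc]
  have h5 : (2 : ℤ) • a - (b + a - hmap (pw 2 Q) n a) = (a + hmap (pw 2 Q) n a) - b := by module
  rw [h5, ← h2b]
  module

theorem taskTref : Pool.Agent.TH179.BE.TaskTref := by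
  intro M Q _ _ A B q α β γ hA hB hAB hqa hqb hal hbr bα bβ bγ n
  have eA : ∀ n x, hmap q n (hmap (sub A) n x) = hmap (pw 3 Q) n (hmap α n x) := by
    intro n x
    rw [← hmap_comp, ← hmap_comp]
    congr 2
    exact ContinuousMap.ext hqa
  have eB : ∀ n x, hmap q n (hmap (sub B) n x) = hmap (pw 2 Q) n (hmap β n x) := by
    intro n x
    rw [← hmap_comp, ← hmap_comp]
    congr 2
    exact ContinuousMap.ext hqb
  have el : ∀ n x, hmap α n (hmap (inl A B) n x) = hmap (pw 2 Q) n (hmap γ n x) := by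
    intro n x
    rw [← hmap_comp, ← hmap_comp]
    congr 2
    exact ContinuousMap.ext hal
  have er : ∀ n x, hmap β n (hmap (inr A B) n x) = hmap (pw 3 Q) n (hmap γ n x) := by
    intro n x
    rw [← hmap_comp, ← hmap_comp]
    congr 2
    exact ContinuousMap.ext hbr
  have key : ∀ n (u : HH A n) (v : HH B n),
      hmap q n (hmap (sub A) n u + hmap (sub B) n v) = 0 →
      hmap (sub A) n u + hmap (sub B) n v = 0 := by
    intro n u v h
    rw [map_add, eA, eB] at h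
    have h1 : hmap (pw 3 Q) n (hmap α n u) = hmap (pw 2 Q) n (- hmap β n v) := by
      rw [map_neg]
      exact eq_neg_of_add_eq_zero_left h
    obtain ⟨c', h2, h3⟩ := common Q n _ _ h1
    obtain ⟨c, rfl⟩ := (bγ n).2 c'
    rw [← el] at h2
    rw [← er] at h3
    have h4 : u = hmap (inl A B) n c := (bα n).1 h2
    have h5 : v = - hmap (inr A B) n c := (bβ n).1 (by rw [map_neg, ← h3, neg_neg])
    rw [h4, h5, map_neg, J370.sub_inl, add_neg_cancel]
  constructor
  · rw [injective_iff_map_eq_zero]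
    intro x hx
    cases n with
    | zero =>
      obtain ⟨u, v, rfl⟩ := J370.zero_surj A B hAB x
      exact key 0 u v hx
    | succ n =>
      obtain ⟨h1, h2⟩ := mv_delta_inl A B hA hB hAB n x
      have h3 : hmap (pw 2 Q) n (hmap γ n (delta A B n x)) = 0 := by
        rw [← el, h1, map_zero]
      have h4 : hmap (pw 3 Q) n (hmap γ n (delta A B n x)) = 0 := by
        rw [← er, h2, map_zero]
      rw [rel_a, h3, smul_zero, zero_sub, neg_eq_zero] at h4
      have h5 : delta A B n x = 0 := (bγ n).1 (by rw [h4, map_zero])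
      obtain ⟨u, v, rfl⟩ := mv_exact1 A B hA hB hAB n x h5
      exact key (n + 1) u v hx
  · intro y
    obtain ⟨u, hu⟩ := (bα n).2 (-y)
    obtain ⟨v, hv⟩ := (bβ n).2 ((2 : ℤ) • y)
    refine ⟨hmap (sub A) n u + hmap (sub B) n v, ?_⟩
    rw [map_add, eA, eB, hu, hv, rel_a, map_neg, map_smul]
    module

end Pool.Agent.TH670.J371
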