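import Pool.Agent.TH179.BE.Stm
import Pool.Agent.Helper534.LS.P_raw
import Pool.Agent.Helper534.LS.P_mv_exact1
import Pool.Agent.Helper534.LS.P_mv_exact2
import Pool.Agent.Helper534.LS.P_mv_delta_sub
import Pool.Agent.Helper534.LS.P_mv_delta_inl
import Pool.Agent.Helper534.LS.P_mv_nat
import Pool.Agent.Helper534.LS.P_hmap_comp

/-!
# Five lemma for Mayer-Vietoris sequences of integral singular homology
-/

set_option autoImplicit false

open Pool.Agent.Helper534.LS

namespace Pool.Agent.TH670.J370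

variable {X : Type} [TopologicalSpace X]

theorem cls_eq {n : ℕ} {z z' : Sing X n →₀ ℤ} {hz : z ∈ Cyc X n} {hz' : z' ∈ Cyc X n} :
    cls z hz = cls z' hz' ↔ z - z' ∈ Bdy X n := by
  unfold cls
  rw [Submodule.Quotient.eq]
  exact Iff.rfl

/-- Exactness at the middle term. -/
theorem mid_exact (U V : Set X) (hU : IsOpen U) (hV : IsOpen V) (hUV : ∀ x, x ∈ U ∨ x ∈ V)
    (n : ℕ) (u : HH U n) (v : HH V n) (h : hmap (sub U) n u + hmap (sub V) n v = 0) :
    ∃ d : HH ↥(U ∩ V) n, u = hmap (inl U V) n d ∧ v = - hmap (inr U V) n d := by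
  obtain ⟨⟨u0, hu0⟩, rfl⟩ := Submodule.Quotient.mk_surjective _ u
  obtain ⟨⟨v0, hv0⟩, rfl⟩ := Submodule.Quotient.mk_surjective _ v
  have e : hmap (sub U) n (Submodule.Quotient.mk ⟨u0, hu0⟩) +
      hmap (sub V) n (Submodule.Quotient.mk ⟨v0, hv0⟩) =
      cls (push (sub U) n u0 + push (sub V) n v0)
        ((Cyc X n).add_mem (push_mem_Cyc _ n u0 hu0) (push_mem_Cyc _ n v0 hv0)) := rfl
  rw [e] at h
  have h1 : push (sub U) n u0 + push (sub V) n v0 ∈ Bdy X n :=
    (Submodule.Quotient.mk_eq_zero ((Bdy X n).submoduleOf (Cyc X n))).1 h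
  obtain ⟨d, hd, h2, h3⟩ := raw_inj U V hU hV hUV n u0 v0 hu0 hv0 h1
  refine ⟨cls d hd, ?_, ?_⟩
  · have : hmap (inl U V) n (cls d hd) = cls (push (inl U V) n d) (push_mem_Cyc _ n d hd) := rfl
    rw [this]
    exact cls_eq.2 h2
  · have h4 : - hmap (inr U V) n (cls d hd) =
        cls (- push (inr U V) n d) ((Cyc V n).neg_mem (push_mem_Cyc _ n d hd)) := rfl
    rw [h4]
    refine cls_eq.2 ?_
    rw [sub_neg_eq_add]
    exact h3

/-- Surjectivity in degree zero. -/
theorem zero_surj (U V : Set X) (hUV : ∀ x, x ∈ U ∨ x ∈ V) (x : HH X 0) :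
    ∃ (u : HH U 0) (v : HH V 0), x = hmap (sub U) 0 u + hmap (sub V) 0 v := by
  obtain ⟨⟨z, hz⟩, rfl⟩ := Submodule.Quotient.mk_surjective _ x
  obtain ⟨u, v, huv⟩ := Pool.Agent.Helper534.HB.mv_zero U V hUV z
  refine ⟨cls u Submodule.mem_top, cls v Submodule.mem_top, ?_⟩
  have h1 : hmap (sub U) 0 (cls u Submodule.mem_top) + hmap (sub V) 0 (cls v Submodule.mem_top) =
      cls (push (sub U) 0 u + push (sub V) 0 v) Submodule.mem_top := rfl
  rw [h1]
  refine cls_eq.2 ?_
  have h2 : z - (push (sub U) 0 u + push (sub V) 0 v) = 0 := by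
    rw [sub_eq_zero]
    exact huv
  rw [h2]
  exact (Bdy X 0).zero_mem

theorem sub_inl (U V : Set X) (n : ℕ) (d : HH ↥(U ∩ V) n) :
    hmap (sub U) n (hmap (inl U V) n d) = hmap (sub V) n (hmap (inr U V) n d) := by
  rw [← hmap_comp, ← hmap_comp]
  rfl

theorem taskMV : Pool.Agent.TH179.BE.TaskMV := by
  intro X Y _ _ U V U' V' f fU fV fI hU hV hUV hU' hV' hUV' hfU hfV hfI bU bV bI n
  have eU : ∀ n x, hmap f n (hmap (sub U) n x) = hmap (sub U') n (hmap fU n x) := by
    intro n x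
    rw [← hmap_comp, ← hmap_comp]
    congr 2
    ext a
    exact (hfU a).symm
  have eV : ∀ n x, hmap f n (hmap (sub V) n x) = hmap (sub V') n (hmap fV n x) := by
    intro n x
    rw [← hmap_comp, ← hmap_comp]
    congr 2
    ext a
    exact (hfV a).symm
  have el : ∀ n x, hmap fU n (hmap (inl U V) n x) = hmap (inl U' V') n (hmap fI n x) := by
    intro n x
    rw [← hmap_comp, ← hmap_comp]
    congr 2
    ext a
    exact (hfU _).trans (hfI a).symm
  have er : ∀ n x, hmap fV n (hmap (inr U V) n x) = hmap (inr U' V') n (hmap fI n x) := by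
    intro n x
    rw [← hmap_comp, ← hmap_comp]
    congr 2
    ext a
    exact (hfV _).trans (hfI a).symm
  have memU : ∀ x ∈ U, f x ∈ U' := fun x hx => by
    have := hfU ⟨x, hx⟩
    rw [← this]
    exact (fU ⟨x, hx⟩).2
  have memV : ∀ x ∈ V, f x ∈ V' := fun x hx => by
    have := hfV ⟨x, hx⟩
    rw [← this]
    exact (fV ⟨x, hx⟩).2
  have nat : ∀ n x, delta U' V' n (hmap f (n + 1) x) = hmap fI n (delta U V n x) := fun n x =>
    mv_nat U V hU hV hUV U' V' hU' hV' hUV' f memU memV fI hfI n x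
  have key : ∀ n (u : HH U n) (v : HH V n),
      hmap f n (hmap (sub U) n u + hmap (sub V) n v) = 0 →
      hmap (sub U) n u + hmap (sub V) n v = 0 := by
    intro n u v h
    rw [map_add, eU, eV] at h
    obtain ⟨d', h1, h2⟩ := mid_exact U' V' hU' hV' hUV' n _ _ h
    obtain ⟨d, rfl⟩ := (bI n).2 d'
    rw [← el] at h1
    rw [← er, ← map_neg] at h2
    rw [(bU n).1 h1, (bV n).1 h2, map_neg, sub_inl, add_neg_cancel]
  constructor
  · rw [injective_iff_map_eq_zero]
    intro x hx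
    cases n with
    | zero =>
      obtain ⟨u, v, rfl⟩ := zero_surj U V hUV x
      exact key 0 u v hx
    | succ n =>
      have h1 : delta U V n x = 0 := by
        apply (bI n).1
        rw [map_zero, ← nat, hx, map_zero]
      obtain ⟨u, v, rfl⟩ := mv_exact1 U V hU hV hUV n x h1
      exact key (n + 1) u v hx
  · intro y
    cases n with
    | zero =>
      obtain ⟨u', v', rfl⟩ := zero_surj U' V' hUV' y
      obtain ⟨u, rfl⟩ := (bU 0).2 u'
      obtain ⟨v, rfl⟩ := (bV 0).2 v'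
      exact ⟨hmap (sub U) 0 u + hmap (sub V) 0 v, by rw [map_add, eU, eV]⟩
    | succ n =>
      obtain ⟨d, hd⟩ := (bI n).2 (delta U' V' n y)
      obtain ⟨h1, h2⟩ := mv_delta_inl U' V' hU' hV' hUV' n y
      rw [← hd, ← el] at h1
      rw [← hd, ← er] at h2
      have h3 : hmap (inl U V) n d = 0 := (bU n).1 (by rw [h1, map_zero])
      have h4 : hmap (inr U V) n d = 0 := (bV n).1 (by rw [h2, map_zero])
      obtain ⟨x, hx⟩ := mv_exact2 U V hU hV hUV n d h3 h4
      have h5 : delta U' V' n (y - hmap f (n + 1) x) = 0 := by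
        rw [map_sub, nat, hx, hd, sub_self]
      obtain ⟨u', v', h6⟩ := mv_exact1 U' V' hU' hV' hUV' n _ h5
      obtain ⟨u, rfl⟩ := (bU (n + 1)).2 u'
      obtain ⟨v, rfl⟩ := (bV (n + 1)).2 v'
      refine ⟨x + (hmap (sub U) (n + 1) u + hmap (sub V) (n + 1) v), ?_⟩
      rw [map_add, map_add, eU, eV, ← h6]
      abel

end Pool.Agent.TH670.J370
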